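import Mathlib
import Pool.Agent.Work.MP_ce2d68_st.Interface

set_option autoImplicit false

open Polynomial Filter Topology
open scoped ComplexConjugate

namespace Pool.Agent.Work.MP_ce2d68_st.helper90

open Pool.Agent.Work.MP_ce2d68_st

/-! real polynomials -/

theorem exists_real_of_RealP (p : ℂ[X]) (hp : RealP p) :
    ∃ q : ℝ[X], q.map (algebraMap ℝ ℂ) = p ∧ q.natDegree = p.natDegree ∧ (p.Monic → q.Monic) := by
  have h1 : p ∈ Polynomial.lifts (algebraMap ℝ ℂ) := by
    rw [Polynomial.lifts_iff_coeff_lifts]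
    intro n
    have h2 : (p.map (starRingEnd ℂ)).coeff n = p.coeff n := by rw [hp]
    rw [Polynomial.coeff_map] at h2
    obtain ⟨x, hx⟩ := Complex.conj_eq_iff_real.mp h2
    exact ⟨x, by rw [hx]; rfl⟩
  obtain ⟨q, hq⟩ := (Polynomial.mem_lifts p).mp h1
  refine ⟨q, hq, ?_, ?_⟩
  · rw [← hq, Polynomial.natDegree_map]
  · intro hm
    rw [← hq] at hm
    exact (Function.Injective.monic_map_iff (algebraMap ℝ ℂ).injective).mpr hm

theorem geo_bound (m : ℕ) : ∑ i ∈ Finset.Icc 1 m, (1 / 10 : ℝ) ^ i ≤ 1 / 9 := by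
  have h : ∑ i ∈ Finset.Icc 1 m, (1 / 10 : ℝ) ^ i = 1 / 9 * (1 - (1 / 10 : ℝ) ^ m) := by
    induction m with
    | zero => simp
    | succ n ih =>
      rw [Finset.sum_Icc_succ_top (by omega), ih]
      ring
  rw [h]
  have : (0 : ℝ) < (1 / 10 : ℝ) ^ m := by positivity
  nlinarith

theorem rts_X_sub_one : rts (X - 1 : ℤ[X]) = {1} := by
  have h : cp (X - 1 : ℤ[X]) = X - C 1 := by simp [cp]
  rw [rts, h, Polynomial.roots_X_sub_C]
  simp

theorem natDegree_X_sub_one : (X - 1 : ℤ[X]).natDegree = 1 := by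
  have : (X - 1 : ℤ[X]) = X - C 1 := by simp
  rw [this, natDegree_X_sub_C]

theorem fam_X_sub_one : Fam {(X - 1 : ℤ[X])} := by
  intro P hP
  rw [Finset.mem_singleton] at hP
  subst hP
  have h : (X - 1 : ℤ[X]) = X - C 1 := by simp
  refine ⟨?_, ?_⟩
  · rw [h]; exact monic_X_sub_C 1
  · rw [h]; exact Polynomial.Monic.irreducible_of_irreducible_map (Int.castRingHom ℚ) _ (monic_X_sub_C 1)
      (by
        rw [Polynomial.map_sub, Polynomial.map_X, Polynomial.map_C]
        exact irreducible_X_sub_C _)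

/-- for large `N` the error terms are small -/
theorem exists_large (c a b C1 : ℝ) (N₀ : ℕ) :
    ∃ N : ℕ, N₀ ≤ N ∧ 1 ≤ N ∧
      c * (a * N * Real.exp (-(N : ℝ)) + b * N * Real.exp (C1 - N)) ≤ 1 / 4 := by
  have h1 : Tendsto (fun N : ℕ => (N : ℝ) * Real.exp (-(N : ℝ))) atTop (𝓝 0) := by
    have := (Real.tendsto_pow_mul_exp_neg_atTop_nhds_zero 1).comp
      (tendsto_natCast_atTop_atTop (R := ℝ))
    simpa [Function.comp_def] using this
  have h2 : Tendsto (fun N : ℕ => c * (a * N * Real.exp (-(N : ℝ)) + b * N * Real.exp (C1 - N)))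
      atTop (𝓝 0) := by
    have h3 : (fun N : ℕ => c * (a * N * Real.exp (-(N : ℝ)) + b * N * Real.exp (C1 - N)))
        = fun N : ℕ => (c * (a + b * Real.exp C1)) * ((N : ℝ) * Real.exp (-(N : ℝ))) := by
      funext N
      have : Real.exp (C1 - N) = Real.exp C1 * Real.exp (-(N : ℝ)) := by
        rw [← Real.exp_add]; ring_nf
      rw [this]; ring
    rw [h3]
    simpa using h1.const_mul (c * (a + b * Real.exp C1))
  have h3 : ∀ᶠ N : ℕ in atTop,
      c * (a * N * Real.exp (-(N : ℝ)) + b * N * Real.exp (C1 - N)) ≤ 1 / 4 :=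
    (h2.eventually (gt_mem_nhds (by norm_num : (0 : ℝ) < 1 / 4))).mono fun N hN => hN.le
  obtain ⟨N, hN⟩ := (h3.and ((eventually_ge_atTop N₀).and (eventually_ge_atTop 1))).exists
  exact ⟨N, hN.2.1, hN.2.2, hN.1⟩

/-- base families -/
noncomputable def Rf (Ps : Finset ℤ[X]) (E : ℕ) (s : ℕ) : Finset ℤ[X] := if s < E then {X - 1} else Ps

theorem prod_Rf (Ps : Finset ℤ[X]) (E s : ℕ) :
    ∏ i ∈ Finset.range s, pr (Rf Ps E i) = (X - 1) ^ (min s E) * (pr Ps) ^ (s - E) := by
  induction s with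
  | zero => simp
  | succ n ih =>
    rw [Finset.prod_range_succ, ih]
    by_cases h : n < E
    · have h1 : min (n + 1) E = min n E + 1 := by omega
      have h2 : n + 1 - E = n - E := by omega
      have h3 : pr (Rf Ps E n) = X - 1 := by simp [Rf, h, pr]
      rw [h1, h2, h3]; ring
    · have h1 : min (n + 1) E = min n E := by omega
      have h2 : n + 1 - E = n - E + 1 := by omega
      have h3 : pr (Rf Ps E n) = pr Ps := by simp [Rf, h]
      rw [h1, h2, h3]; ring

theorem dg_singleton : dg {(X - 1 : ℤ[X])} = 1 := by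
  simp only [dg, Finset.sum_singleton]
  exact natDegree_X_sub_one

theorem sum_Rf (Ps : Finset ℤ[X]) (E s : ℕ) :
    ∑ i ∈ Finset.range s, dg (Rf Ps E i) = min s E + (s - E) * dg Ps := by
  induction s with
  | zero => simp
  | succ n ih =>
    rw [Finset.sum_range_succ, ih]
    by_cases h : n < E
    · have h1 : min (n + 1) E = min n E + 1 := by omega
      have h2 : n + 1 - E = n - E := by omega
      have h3 : dg (Rf Ps E n) = 1 := by
        simp only [Rf, h, if_true]; exact dg_singleton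
      rw [h1, h2, h3]; ring
    · have h1 : min (n + 1) E = min n E := by omega
      have h2 : n + 1 - E = n - E + 1 := by omega
      have h3 : dg (Rf Ps E n) = dg Ps := by simp [Rf, h]
      rw [h1, h2, h3]; ring

theorem sum_Ico_Rf (Ps : Finset ℤ[X]) (E s M : ℕ) (h : s ≤ M) :
    (min s E + (s - E) * dg Ps) + ∑ i ∈ Finset.Ico s M, dg (Rf Ps E i)
      = min M E + (M - E) * dg Ps := by
  rw [← sum_Rf, ← sum_Rf, Finset.sum_range_add_sum_Ico _ h]

/-- the normalised test polynomials -/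
theorem exists_nt (D : ℕ) (TP : ℂ → ℝ) (h : Blk D TP) :
    ∃ nt : ℂ → ℂ[X], ∀ ζ, (nt ζ).natDegree ≤ D ∧ (nt ζ).eval ζ = 1 ∧
      ∀ z, ‖(nt ζ).eval z‖ ≤ TP z / TP ζ := by
  have h1 : ∀ ζ, ∃ g : ℂ[X], g.natDegree ≤ D ∧ g.eval ζ = 1 ∧ ∀ z, ‖g.eval z‖ ≤ TP z / TP ζ := by
    intro ζ
    obtain ⟨g, hg1, hg2, hg3⟩ := h.2.2 ζ
    have hpos := h.2.1 ζ
    have hne : g.eval ζ ≠ 0 := by
      intro h0
      rw [h0, norm_zero] at hg3
      linarith
    refine ⟨C (g.eval ζ)⁻¹ * g, ?_, ?_, ?_⟩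
    · exact (natDegree_C_mul_le _ _).trans hg1
    · rw [eval_mul, eval_C, inv_mul_cancel₀ hne]
    · intro z
      rw [eval_mul, eval_C, norm_mul, norm_inv, hg3, div_eq_inv_mul]
      exact mul_le_mul_of_nonneg_left (hg2 z) (inv_nonneg.mpr hpos.le)
  choose nt hnt using h1
  exact ⟨nt, hnt⟩

theorem phase1 (K : Set ℂ) (e N s : ℕ) (TP TO : ℂ → ℝ) (r A1 om : ℝ) (g : ℂ[X])
    (hr0 : 0 < r) (hr1 : r ≤ 1) (hTP : ∀ z, 0 < TP z) (hTO : ∀ z, 0 < TO z)
    (hii : ∀ z ∈ K, Real.exp om ≤ TO z)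
    (hA1 : A1 ≤ Real.log (TP 1)) (he : e * Real.log (1 / r) + 1 ≤ A1 + om)
    (hs : s < e * N) (hg : ∀ z, ‖g.eval z‖ ≤ TP z / TP 1) :
    ∀ z ∈ K, ‖z - 1‖ ^ s * ‖(g ^ N).eval z‖
      ≤ Real.exp (-(N : ℝ)) * (TP z * TO z * (max ‖z - 1‖ r) ^ e) ^ N := by
  intro z hz
  set μ : ℝ := max ‖z - 1‖ r with hμ
  have hμpos : 0 < μ := lt_of_lt_of_le hr0 (le_max_right _ _)
  have h1 : ‖z - 1‖ ^ s ≤ μ ^ (e * N) * (1 / r) ^ (e * N) := by
    have h2 : ‖z - 1‖ ^ s ≤ μ ^ s := pow_le_pow_left₀ (norm_nonneg _) (le_max_left _ _) s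
    have h3 : μ ^ s * r ^ (e * N) ≤ μ ^ (e * N) := by
      have h4 : μ ^ (e * N) = μ ^ s * μ ^ (e * N - s) := by
        rw [← pow_add]; congr 1; omega
      rw [h4]
      apply mul_le_mul_of_nonneg_left _ (by positivity)
      calc r ^ (e * N) ≤ r ^ (e * N - s) := pow_le_pow_of_le_one hr0.le hr1 (by omega)
        _ ≤ μ ^ (e * N - s) := pow_le_pow_left₀ hr0.le (le_max_right _ _) _
    have h5 : μ ^ s ≤ μ ^ (e * N) * (1 / r) ^ (e * N) := by
      rw [one_div, inv_pow, ← div_eq_mul_inv, le_div_iff₀ (by positivity)]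
      exact h3
    exact h2.trans h5
  have h6 : (1 / r) ^ e / TP 1 ≤ Real.exp (-1) * TO z := by
    have h7 : (1 / r) ^ e / TP 1 = Real.exp (e * Real.log (1 / r) - Real.log (TP 1)) := by
      rw [Real.exp_sub, Real.exp_log (hTP 1), ← Real.log_pow, Real.exp_log (by positivity)]
    rw [h7]
    calc Real.exp (e * Real.log (1 / r) - Real.log (TP 1)) ≤ Real.exp (-1 + om) := by
          apply Real.exp_le_exp.mpr; linarith
      _ = Real.exp (-1) * Real.exp om := Real.exp_add _ _
      _ ≤ Real.exp (-1) * TO z := mul_le_mul_of_nonneg_left (hii z hz) (Real.exp_pos _).le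
  have h8 : ‖(g ^ N).eval z‖ ≤ (TP z / TP 1) ^ N := by
    rw [eval_pow, norm_pow]
    exact pow_le_pow_left₀ (norm_nonneg _) (hg z) N
  have hp1 := hTP 1
  have hpz := hTP z
  have hoz := hTO z
  calc ‖z - 1‖ ^ s * ‖(g ^ N).eval z‖
      ≤ (μ ^ (e * N) * (1 / r) ^ (e * N)) * (TP z / TP 1) ^ N := by
        apply mul_le_mul h1 h8 (norm_nonneg _) (by positivity)
    _ = (μ ^ e * TP z * ((1 / r) ^ e / TP 1)) ^ N := by
        rw [pow_mul, pow_mul]
        rw [← mul_pow, ← mul_pow]
        congr 1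
        ring
    _ ≤ (μ ^ e * TP z * (Real.exp (-1) * TO z)) ^ N := by
        apply pow_le_pow_left₀ (by positivity)
        apply mul_le_mul_of_nonneg_left h6 (by positivity)
    _ = Real.exp (-(N : ℝ)) * (TP z * TO z * μ ^ e) ^ N := by
        have : Real.exp (-(N : ℝ)) = Real.exp (-1) ^ N := by
          rw [← Real.exp_nat_mul]; congr 1; ring
        rw [this, ← mul_pow]
        congr 1
        ring

theorem phase2 (K : Set ℂ) (e N j k : ℕ) (TP TO : ℂ → ℝ) (r lam om C1 : ℝ) (g : ℂ[X]) (PR : ℂ → ℂ)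
    (a : ℂ)
    (hk : 1 ≤ k) (hr0 : 0 < r) (hTP : ∀ z, 0 < TP z) (hTO : ∀ z, 0 < TO z)
    (hi : ∀ z ∈ K, ‖PR z‖ ^ k ≤ Real.exp lam * TP z)
    (hii : ∀ z ∈ K, Real.exp om ≤ TO z)
    (hC : ∀ z ∈ K, ∀ r' < k, ‖PR z‖ ^ r' ≤ Real.exp C1 * TP z)
    (hj : j < k * N) (hg : ∀ z, ‖g.eval z‖ ≤ TP z / TP a) :
    ∀ z ∈ K, ‖z - 1‖ ^ (e * N) * ‖PR z‖ ^ j * ‖(g ^ (N - 1 - j / k)).eval z‖
      ≤ Real.exp (lam * (j / k : ℕ) - (N - 1 - j / k : ℕ) * Real.log (TP a) - om * N + C1)
        * (TP z * TO z * (max ‖z - 1‖ r) ^ e) ^ N := by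
  intro z hz
  set μ : ℝ := max ‖z - 1‖ r with hμ
  have hμpos : 0 < μ := lt_of_lt_of_le hr0 (le_max_right _ _)
  set q := j / k with hq
  set r' := j % k with hr'
  have hjk : j = k * q + r' := (Nat.div_add_mod j k).symm
  have hqN : q < N := by
    rw [hq]
    exact Nat.div_lt_of_lt_mul hj
  set M' := N - 1 - q with hM'
  have hN : N = q + 1 + M' := by omega
  have hr'k : r' < k := Nat.mod_lt _ (by omega)
  have hpa := hTP a
  have hpz := hTP z
  have hoz := hTO z
  have h1 : ‖z - 1‖ ^ (e * N) ≤ μ ^ (e * N) := pow_le_pow_left₀ (norm_nonneg _) (le_max_left _ _) _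
  have h2 : ‖PR z‖ ^ j ≤ (Real.exp lam * TP z) ^ q * (Real.exp C1 * TP z) := by
    have : ‖PR z‖ ^ j = (‖PR z‖ ^ k) ^ q * ‖PR z‖ ^ r' := by
      rw [← pow_mul, ← pow_add, ← hjk]
    rw [this]
    exact mul_le_mul (pow_le_pow_left₀ (by positivity) (hi z hz) q) (hC z hz r' hr'k)
      (by positivity) (by positivity)
  have h3 : ‖(g ^ M').eval z‖ ≤ (TP z / TP a) ^ M' := by
    rw [eval_pow, norm_pow]
    exact pow_le_pow_left₀ (norm_nonneg _) (hg z) _
  have h4 : (1 : ℝ) ≤ Real.exp (-(om * N)) * TO z ^ N := by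
    have h5 : Real.exp (om * N) ≤ TO z ^ N := by
      have : Real.exp (om * N) = Real.exp om ^ N := by
        rw [← Real.exp_nat_mul]; congr 1; ring
      rw [this]
      exact pow_le_pow_left₀ (Real.exp_pos _).le (hii z hz) N
    calc (1 : ℝ) = Real.exp (-(om * N)) * Real.exp (om * N) := by
          rw [← Real.exp_add]; simp
      _ ≤ _ := mul_le_mul_of_nonneg_left h5 (Real.exp_pos _).le
  have hexp : Real.exp (lam * q - M' * Real.log (TP a) - om * N + C1)
      = Real.exp lam ^ q * (1 / TP a) ^ M' * Real.exp (-(om * N)) * Real.exp C1 := by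
    have e1 : Real.exp lam ^ q = Real.exp (lam * q) := by
      rw [← Real.exp_nat_mul]; congr 1; ring
    have e2 : (1 / TP a) ^ M' = Real.exp (-(M' * Real.log (TP a))) := by
      rw [one_div, inv_pow, Real.exp_neg, Real.exp_nat_mul, Real.exp_log hpa]
    rw [e1, e2, ← Real.exp_add, ← Real.exp_add, ← Real.exp_add]
    congr 1
  rw [hexp]
  calc ‖z - 1‖ ^ (e * N) * ‖PR z‖ ^ j * ‖(g ^ M').eval z‖
      ≤ μ ^ (e * N) * ((Real.exp lam * TP z) ^ q * (Real.exp C1 * TP z)) * (TP z / TP a) ^ M' := by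
        apply mul_le_mul _ h3 (norm_nonneg _) (by positivity)
        apply mul_le_mul h1 h2 (by positivity) (by positivity)
    _ = (Real.exp lam ^ q * (1 / TP a) ^ M' * Real.exp C1 * μ ^ (e * N)
          * (TP z ^ q * TP z * TP z ^ M')) * 1 := by
        rw [mul_pow, div_pow, one_div, inv_pow]
        field_simp
    _ ≤ (Real.exp lam ^ q * (1 / TP a) ^ M' * Real.exp C1 * μ ^ (e * N)
          * (TP z ^ q * TP z * TP z ^ M')) * (Real.exp (-(om * N)) * TO z ^ N) := by
        apply mul_le_mul_of_nonneg_left h4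
        positivity
    _ = Real.exp lam ^ q * (1 / TP a) ^ M' * Real.exp (-(om * N)) * Real.exp C1
          * (TP z * TO z * μ ^ e) ^ N := by
        have : TP z ^ q * TP z * TP z ^ M' = TP z ^ N := by
          rw [← pow_succ, ← pow_add, ← hN]
        rw [this, mul_pow, mul_pow, ← pow_mul]
        ring

/-- averages over the roots in phase 2 -/
theorem avg_bound (hBAS : Stmt_BAS) (P : ℤ[X]) (hP : P.Monic) (hPi : Irreducible P)
    (TP : ℂ → ℝ) (A lam om C1 : ℝ) (q M' N : ℕ) (hN : N = q + 1 + M') (hA : 0 ≤ A) (hlam : 0 ≤ lam)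
    (hiii : -(A * P.natDegree) ≤ ∑ a ∈ rts P, Real.log (TP a)) (hiv : max A lam + 1 ≤ om) :
    (∑ a ∈ rts P, (lam * q - M' * Real.log (TP a) - om * N + C1)) / P.natDegree ≤ C1 - N := by
  obtain ⟨hd, -, hcard, -, -⟩ := hBAS P hP hPi
  have hd' : (0 : ℝ) < P.natDegree := by exact_mod_cast hd
  rw [div_le_iff₀ hd']
  have h1 : ∑ a ∈ rts P, (lam * q - M' * Real.log (TP a) - om * N + C1)
      = P.natDegree * (lam * q - om * N + C1) - M' * ∑ a ∈ rts P, Real.log (TP a) := by
    rw [Finset.mul_sum]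
    have : ∀ a ∈ rts P, (lam * q - M' * Real.log (TP a) - om * N + C1)
        = (lam * q - om * N + C1) - M' * Real.log (TP a) := by
      intro a _; ring
    rw [Finset.sum_congr rfl this, Finset.sum_sub_distrib, Finset.sum_const, hcard, nsmul_eq_mul]
  rw [h1]
  have hM : (0 : ℝ) ≤ M' := Nat.cast_nonneg _
  have hq : (0 : ℝ) ≤ q := Nat.cast_nonneg _
  have hNr : (N : ℝ) = q + 1 + M' := by exact_mod_cast hN
  have h2 : -(M' * ∑ a ∈ rts P, Real.log (TP a)) ≤ M' * (A * P.natDegree) := by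
    nlinarith [mul_le_mul_of_nonneg_left hiii hM]
  have h3 : lam * q + A * M' ≤ max A lam * N := by
    have e1 : lam * q ≤ max A lam * q := mul_le_mul_of_nonneg_right (le_max_right _ _) hq
    have e2 : A * M' ≤ max A lam * M' := mul_le_mul_of_nonneg_right (le_max_left _ _) hM
    have e3 : 0 ≤ max A lam := hA.trans (le_max_left _ _)
    rw [hNr]
    nlinarith
  have h4 : (max A lam + 1) * N ≤ om * N :=
    mul_le_mul_of_nonneg_right hiv (Nat.cast_nonneg _)
  have h5 : lam * q + A * M' - om * N + C1 ≤ C1 - N := by nlinarith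
  calc P.natDegree * (lam * q - om * N + C1) - M' * ∑ a ∈ rts P, Real.log (TP a)
      ≤ P.natDegree * (lam * q - om * N + C1) + M' * (A * P.natDegree) := by linarith
    _ = (lam * q + A * M' - om * N + C1) * P.natDegree := by ring
    _ ≤ (C1 - N) * P.natDegree := mul_le_mul_of_nonneg_right h5 hd'.le

theorem stmt_ETG (hBAS : Stmt_BAS) (hBASF : Stmt_BASF) (hETR : Stmt_ETR) (hTOPP : Stmt_TOPP)
    (hMAXP : Stmt_MAXP) (hEIS : Stmt_EIS) : Stmt_ETG := by
  intro K Ps k e D m TP TO p r lam A A1 om hK hKc hFam hne hk hDk hkD hr0 hr1 hTP hTPs hTO hTOpos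
    hTOs hlam hA hi hii hiii hiv hv hp hpd hpr hpK hpoff hB N₀
  obtain ⟨hprm, hprd, hprc, hcard, hconj, hdisj⟩ := hBASF Ps hFam
  have hTPpos := hTP.2.1
  set Δ := dg Ps with hΔ
  have hΔ1 : 1 ≤ Δ := by
    obtain ⟨P, hP⟩ := hne
    have h1 := (hBAS P (hFam P hP).1 (hFam P hP).2).1
    calc 1 ≤ P.natDegree := h1
      _ ≤ Δ := by
        rw [hΔ, dg]
        exact Finset.single_le_sum (f := fun P : ℤ[X] => P.natDegree) (fun _ _ => Nat.zero_le _) hP
  -- the function T
  set T : ℂ → ℝ := fun z => TP z * TO z * (max ‖z - 1‖ r) ^ e with hT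
  have hμpos : ∀ z : ℂ, 0 < max ‖z - 1‖ r := fun z => lt_of_lt_of_le hr0 (le_max_right _ _)
  have hTpos : ∀ z, 0 < T z := fun z => by
    have := hμpos z
    have := hTPpos z
    have := hTOpos z
    simp only [hT]; positivity
  have hTcont : Continuous T := by
    have h1 := hTP.1
    simp only [hT]
    fun_prop
  have hTsym : Sym T := by
    intro z
    have h1 : ‖(starRingEnd ℂ) z - 1‖ = ‖z - 1‖ := by
      rw [← Complex.norm_conj (z - 1)]; simp
    simp only [hT]
    rw [hTPs z, hTOs z, h1]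
  -- the constant C1
  obtain ⟨C1, hC1⟩ : ∃ C1 : ℝ, ∀ z ∈ K, ∀ r' < k, ‖ev (pr Ps) z‖ ^ r' ≤ Real.exp C1 * TP z := by
    have hcont : ContinuousOn (fun z : ℂ => (max 1 ‖ev (pr Ps) z‖) ^ k / TP z) K := by
      apply Continuous.continuousOn
      apply Continuous.div
      · have : Continuous (fun z => ev (pr Ps) z) := by
          unfold ev; exact Polynomial.continuous _
        fun_prop
      · exact hTP.1
      · intro z; exact (hTPpos z).ne'
    obtain ⟨B, hB'⟩ := hK.bddAbove_image hcont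
    refine ⟨Real.log (max B 1), ?_⟩
    intro z hz r' hr'
    have h1 : (max 1 ‖ev (pr Ps) z‖) ^ k / TP z ≤ max B 1 :=
      (hB' ⟨z, hz, rfl⟩).trans (le_max_left _ _)
    rw [div_le_iff₀ (hTPpos z)] at h1
    rw [Real.exp_log (lt_of_lt_of_le one_pos (le_max_right _ _))]
    calc ‖ev (pr Ps) z‖ ^ r' ≤ (max 1 ‖ev (pr Ps) z‖) ^ r' :=
          pow_le_pow_left₀ (norm_nonneg _) (le_max_right _ _) _
      _ ≤ (max 1 ‖ev (pr Ps) z‖) ^ k := pow_le_pow_right₀ (le_max_left _ _) hr'.le
      _ ≤ _ := h1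
  -- constants of ETR
  obtain ⟨c, hc0, hc⟩ := hETR K hK hKc {(X - 1 : ℤ[X])} Ps fam_X_sub_one hFam
    (Finset.singleton_nonempty _) hne
  obtain ⟨N, hN0, hN1, hNsmall⟩ := exists_large c e (k * Ps.card) C1 N₀
  obtain ⟨nt, hnt⟩ := exists_nt D TP hTP
  refine ⟨N, hN0, ?_⟩
  -- degrees
  set n := N * (D + m + e) with hn
  set m' := N * (D + m - k * Δ) with hm'
  set E := e * N with hE
  set M := E + k * N with hM
  have hnm : n - m' = E + k * N * Δ := by
    have h1 : D + m + e = (D + m - k * Δ) + (k * Δ + e) := by omega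
    have h2 : n = m' + N * (k * Δ + e) := by
      rw [hn, h1, mul_add]
    rw [h2, Nat.add_sub_cancel_left, hE]
    ring
  have hpos : 1 ≤ E + k * N * Δ := by
    have : 1 ≤ k * N * Δ := Nat.one_le_iff_ne_zero.mpr (by positivity)
    omega
  have hmn : m' < n := by omega
  -- the polynomial H
  set H : ℤ[X] := (X - 1) ^ E * (pr Ps) ^ (k * N) with hH
  have hX1m : (X - 1 : ℤ[X]).Monic := by
    have : (X - 1 : ℤ[X]) = X - C 1 := by simp
    rw [this]; exact monic_X_sub_C 1
  have hHm : H.Monic := (hX1m.pow _).mul (hprm.pow _)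
  have hHd : H.natDegree = n - m' := by
    rw [hnm, hH, (hX1m.pow _).natDegree_mul (hprm.pow _), hX1m.natDegree_pow, hprm.natDegree_pow,
      natDegree_X_sub_one, hprd]
    ring
  -- real versions
  obtain ⟨pR, hpR, hpRd, hpRm⟩ := exists_real_of_RealP p hpr
  have hpRm' := hpRm hp
  have hBex : ∀ i ∈ Finset.Icc 1 m', ∃ B : ℝ[X], B.Monic ∧ B.natDegree = n - i ∧
      ∀ z ∈ K, ‖rv B z‖ ≤ (1 / 10 : ℝ) ^ i * T z ^ N := by
    intro i hi'
    obtain ⟨B, hB1, hB2, hB3, hB4⟩ := hB N hN1 i hi'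
    obtain ⟨BR, hBR, hBRd, hBRm⟩ := exists_real_of_RealP B hB2
    refine ⟨BR, hBRm hB1, by rw [hBRd, hB3], ?_⟩
    intro z hz
    rw [rv, hBR]
    exact hB4 z hz
  choose! B hBm hBd hBb using hBex
  obtain ⟨t, v, ht, hvd, hdeg⟩ := hTOPP n m' H (pR ^ N) B hmn hHm hHd (hpRm'.pow N)
    (by rw [hpRm'.natDegree_pow, hpRd, hpd]) (fun i hi' => ⟨hBm i hi', hBd i hi'⟩)
  rw [hnm] at hdeg
  set f : ℝ[X] := pR ^ N + ∑ i ∈ Finset.Icc 1 m', C (t i) * B i - X ^ n - 2
        - 4 * (H * v).map (Int.castRingHom ℝ) with hf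
  have hsumM : ∑ i ∈ Finset.range M, dg (Rf Ps E i) = E + k * N * Δ := by
    rw [sum_Rf, hM]
    have h1 : min (E + k * N) E = E := by omega
    have h2 : E + k * N - E = k * N := by omega
    rw [h1, h2]
  -- apply ETR
  obtain ⟨U, h, hUd, hfe, hhb⟩ := hc M (Rf Ps E) (fun z => T z ^ N)
    (fun s a => if s < E then -(N : ℝ) else
      lam * ((s - E) / k : ℕ) - (N - 1 - (s - E) / k : ℕ) * Real.log (TP a) - om * N + C1)
    (fun s a => if s < E then (nt a) ^ N else (nt a) ^ (N - 1 - (s - E) / k))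
    (by
      intro s
      by_cases hs : s < E
      · left; simp [Rf, hs]
      · right; simp [Rf, hs])
    (by intro z; simp only; rw [hTsym z])
    (fun z _ => (pow_pos (hTpos z) N).le)
    (by
      intro s z
      simp only
      rw [hTPs z])
    (by
      intro s hs a ha
      by_cases hsE : s < E
      · have hR : Rf Ps E s = {X - 1} := by simp [Rf, hsE]
        rw [hR] at ha ⊢
        have ha1 : a = 1 := by
          simp only [rs, Finset.singleton_biUnion, rts_X_sub_one, Finset.mem_singleton] at ha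
          exact ha
        subst ha1
        have he0 : e ≠ 0 := by
          rintro rfl
          simp [hE] at hsE
        obtain ⟨hA1, hA1'⟩ := hv he0
        have hsum := sum_Ico_Rf Ps E s M hs.le
        have h1 : min s E = s := by omega
        have h2 : s - E = 0 := by omega
        have h3 : min M E = E := by omega
        have h4 : M - E = k * N := by omega
        rw [h1, h2, h3, h4, zero_mul, add_zero, ← hΔ] at hsum
        simp only [hsE, if_true]
        refine ⟨?_, ?_, ?_⟩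
        · rw [dg_singleton]
          have h5 : ((nt 1) ^ N).natDegree ≤ N * D :=
            natDegree_pow_le.trans (Nat.mul_le_mul_left N (hnt 1).1)
          have h6 : N * D ≤ k * N * Δ := by
            calc N * D ≤ N * (k * Δ) := Nat.mul_le_mul_left N hDk
              _ = k * N * Δ := by ring
          omega
        · rw [eval_pow, (hnt 1).2.1, one_pow]
        · intro z hz
          rw [prod_Rf, h1, h2, pow_zero, mul_one]
          have h7 : ‖ev ((X - 1 : ℤ[X]) ^ s) z‖ = ‖z - 1‖ ^ s := by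
            simp [ev, cp]
          rw [h7]
          exact phase1 K e N s TP TO r A1 om (nt 1) hr0 hr1 hTPpos hTOpos hii hA1 hA1' hsE
            (hnt 1).2.2 z hz
      · have hR : Rf Ps E s = Ps := by simp [Rf, hsE]
        rw [hR] at ha ⊢
        obtain ⟨j, hj⟩ : ∃ j, s = E + j := ⟨s - E, by omega⟩
        have hjE : s - E = j := by omega
        have hjlt : j < k * N := by omega
        have hsum := sum_Ico_Rf Ps E s M hs.le
        have h1 : min s E = E := by omega
        have h3 : min M E = E := by omega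
        have h4 : M - E = k * N := by omega
        rw [h1, hjE, h3, h4, ← hΔ] at hsum
        simp only [hsE, if_false]
        rw [hjE]
        have hqN : j / k < N := Nat.div_lt_of_lt_mul hjlt
        have hmod : j = k * (j / k) + j % k := (Nat.div_add_mod j k).symm
        have hmodlt : j % k < k := Nat.mod_lt _ (by omega)
        refine ⟨?_, ?_, ?_⟩
        · have h5 : ((nt a) ^ (N - 1 - j / k)).natDegree ≤ (N - 1 - j / k) * D :=
            natDegree_pow_le.trans (Nat.mul_le_mul_left _ (hnt a).1)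
          have h6 : (N - 1 - j / k) * D ≤ (N - 1 - j / k) * (k * Δ) := Nat.mul_le_mul_left _ hDk
          have h7 : (N - 1 - j / k) * k + 1 + j ≤ k * N := by
            obtain ⟨M', hM'⟩ : ∃ M', N = j / k + 1 + M' := ⟨N - 1 - j / k, by omega⟩
            have h8 : N - 1 - j / k = M' := by omega
            rw [h8]
            have h9 : k * N = k * (j / k) + k + k * M' := by
              conv_lhs => rw [hM']
              ring
            rw [h9]
            have h10 : M' * k = k * M' := mul_comm _ _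
            omega
          have h11 : ((N - 1 - j / k) * k + 1 + j) * Δ ≤ k * N * Δ := Nat.mul_le_mul_right Δ h7
          have h12 : ((N - 1 - j / k) * k + 1 + j) * Δ
              = (N - 1 - j / k) * (k * Δ) + Δ + j * Δ := by ring
          rw [h12] at h11
          change _ + dg Ps ≤ _
          rw [← hΔ]
          omega
        · rw [eval_pow, (hnt a).2.1, one_pow]
        · intro z hz
          rw [prod_Rf, h1, hjE]
          have h7 : ‖ev ((X - 1 : ℤ[X]) ^ E * pr Ps ^ j) z‖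
              = ‖z - 1‖ ^ (e * N) * ‖ev (pr Ps) z‖ ^ j := by
            simp [ev, cp, hE]
          rw [h7]
          exact phase2 K e N j k TP TO r lam om C1 (nt a) (fun z => ev (pr Ps) z) a hk hr0 hTPpos
            hTOpos hi hii hC1 hjlt (hnt a).2.2 z hz)
    f (by rw [hsumM]; exact_mod_cast hdeg)
  rw [hsumM] at hUd
  -- the error term
  have hhb' : ∀ z ∈ K, ‖rv h z‖ ≤ 1 / 4 * T z ^ N := by
    intro z hz
    refine (hhb z hz).trans ?_
    apply mul_le_mul_of_nonneg_right _ (pow_pos (hTpos z) N).le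
    refine le_trans ?_ hNsmall
    apply mul_le_mul_of_nonneg_left _ hc0.le
    have hsplit : Finset.range M = Finset.range E ∪ Finset.Ico E M := by
      ext x; simp only [Finset.mem_range, Finset.mem_union, Finset.mem_Ico]; omega
    have hdisj' : Disjoint (Finset.range E) (Finset.Ico E M) := by
      rw [Finset.disjoint_left]
      intro x hx hx'
      simp only [Finset.mem_range, Finset.mem_Ico] at hx hx'
      omega
    rw [hsplit, Finset.sum_union hdisj']
    apply add_le_add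
    · have h1 : ∀ s ∈ Finset.range E, ∑ Q ∈ Rf Ps E s,
          Real.exp ((∑ a ∈ rts Q, (if s < E then -(N : ℝ) else
            lam * ((s - E) / k : ℕ) - (N - 1 - (s - E) / k : ℕ) * Real.log (TP a) - om * N + C1))
              / Q.natDegree) ≤ Real.exp (-(N : ℝ)) := by
        intro s hs
        rw [Finset.mem_range] at hs
        have hR : Rf Ps E s = {X - 1} := by simp [Rf, hs]
        rw [hR, Finset.sum_singleton, rts_X_sub_one, natDegree_X_sub_one]
        simp [hs]
      calc _ ≤ ∑ s ∈ Finset.range E, Real.exp (-(N : ℝ)) := Finset.sum_le_sum h1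
        _ = e * N * Real.exp (-(N : ℝ)) := by
          rw [Finset.sum_const, Finset.card_range, nsmul_eq_mul, hE]; push_cast; ring
    · have h1 : ∀ s ∈ Finset.Ico E M, ∑ Q ∈ Rf Ps E s,
          Real.exp ((∑ a ∈ rts Q, (if s < E then -(N : ℝ) else
            lam * ((s - E) / k : ℕ) - (N - 1 - (s - E) / k : ℕ) * Real.log (TP a) - om * N + C1))
              / Q.natDegree) ≤ Ps.card * Real.exp (C1 - N) := by
        intro s hs
        rw [Finset.mem_Ico] at hs
        have hsE : ¬ s < E := by omega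
        have hR : Rf Ps E s = Ps := by simp [Rf, hsE]
        rw [hR]
        have hjlt : s - E < k * N := by omega
        have hqN : (s - E) / k < N := Nat.div_lt_of_lt_mul hjlt
        have h2 : ∀ Q ∈ Ps, Real.exp ((∑ a ∈ rts Q, (if s < E then -(N : ℝ) else
            lam * ((s - E) / k : ℕ) - (N - 1 - (s - E) / k : ℕ) * Real.log (TP a) - om * N + C1))
              / Q.natDegree) ≤ Real.exp (C1 - N) := by
          intro Q hQ
          apply Real.exp_le_exp.mpr
          simp only [hsE, if_false]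
          exact avg_bound hBAS Q (hFam Q hQ).1 (hFam Q hQ).2 TP A lam om C1 ((s - E) / k)
            (N - 1 - (s - E) / k) N (by omega) hA hlam (hiii Q hQ) hiv
        calc _ ≤ ∑ Q ∈ Ps, Real.exp (C1 - N) := Finset.sum_le_sum h2
          _ = _ := by rw [Finset.sum_const, nsmul_eq_mul]
      calc _ ≤ ∑ s ∈ Finset.Ico E M, (Ps.card * Real.exp (C1 - N)) := Finset.sum_le_sum h1
        _ = k * Ps.card * N * Real.exp (C1 - N) := by
          rw [Finset.sum_const, Nat.card_Ico, nsmul_eq_mul]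
          have : M - E = k * N := by omega
          rw [this]; push_cast; ring
  -- the polynomial F
  have hHvU : (H * v + U).degree < (n : WithBot ℕ) := by
    refine lt_of_le_of_lt (degree_add_le _ _) (max_lt ?_ ?_)
    · by_cases hv0 : v = 0
      · rw [hv0, mul_zero, degree_zero]; exact WithBot.bot_lt_coe _
      · have h1 : v.natDegree < m' := (Polynomial.natDegree_lt_iff_degree_lt hv0).mpr hvd
        have h2 : (H * v).natDegree < n := by
          refine lt_of_le_of_lt Polynomial.natDegree_mul_le ?_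
          rw [hHd]
          omega
        exact (Polynomial.natDegree_lt_iff_degree_lt (mul_ne_zero hHm.ne_zero hv0)).mp h2
    · refine hUd.trans_le ?_
      have : E + k * N * Δ ≤ n := by omega
      exact_mod_cast this
  obtain ⟨hFm, hFd, hFi, hF0⟩ := hEIS n (H * v + U) (by omega) hHvU
  set F : ℤ[X] := X ^ n + 2 + 4 * (H * v + U) with hF
  have hFR : F.map (Int.castRingHom ℝ)
      = pR ^ N + ∑ i ∈ Finset.Icc 1 m', C (t i) * B i - h := by
    have h1 : F.map (Int.castRingHom ℝ) = X ^ n + 2 + 4 * (H * v).map (Int.castRingHom ℝ)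
        + 4 * U.map (Int.castRingHom ℝ) := by
      rw [hF]
      simp only [Polynomial.map_add, Polynomial.map_mul, Polynomial.map_pow, Polynomial.map_X,
        Polynomial.map_ofNat]
      ring
    have h2 : f - 4 * U.map (Int.castRingHom ℝ) = h := by rw [hfe]; ring
    rw [h1, ← h2, hf]
    ring
  have hFev : ∀ z : ℂ, ev F z = (p.eval z) ^ N + ∑ i ∈ Finset.Icc 1 m', (t i : ℂ) * rv (B i) z
      - rv h z := by
    intro z
    have h1 : ev F z = ((F.map (Int.castRingHom ℝ)).map (algebraMap ℝ ℂ)).eval z := by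
      rw [ev, cp, Polynomial.map_map]
      congr 2
    rw [h1, hFR]
    simp only [Polynomial.map_sub, Polynomial.map_add, Polynomial.map_pow, hpR,
      Polynomial.map_sum, Polynomial.map_mul, Polynomial.map_C, eval_sub, eval_add, eval_pow,
      Polynomial.eval_finsetSum, eval_mul, eval_C, rv]
    rfl
  have hFK : ∀ z ∈ K, ‖ev F z - (p.eval z) ^ N‖ ≤ 1 / 2 * T z ^ N := by
    intro z hz
    have hTN := pow_pos (hTpos z) N
    have h1 : ev F z - (p.eval z) ^ N = ∑ i ∈ Finset.Icc 1 m', (t i : ℂ) * rv (B i) z - rv h z := by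
      rw [hFev]; ring
    rw [h1]
    have h2 : ‖∑ i ∈ Finset.Icc 1 m', (t i : ℂ) * rv (B i) z‖ ≤ 2 / 9 * T z ^ N := by
      calc ‖∑ i ∈ Finset.Icc 1 m', (t i : ℂ) * rv (B i) z‖
          ≤ ∑ i ∈ Finset.Icc 1 m', ‖(t i : ℂ) * rv (B i) z‖ := norm_sum_le _ _
        _ ≤ ∑ i ∈ Finset.Icc 1 m', (1 / 10 : ℝ) ^ i * (2 * T z ^ N) := by
            apply Finset.sum_le_sum
            intro i hi'
            rw [norm_mul, Complex.norm_real, Real.norm_eq_abs]
            have h3 := hBb i hi' z hz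
            calc |t i| * ‖rv (B i) z‖ ≤ 2 * ((1 / 10 : ℝ) ^ i * T z ^ N) :=
                  mul_le_mul (ht i) h3 (norm_nonneg _) (by norm_num)
              _ = _ := by ring
        _ = (∑ i ∈ Finset.Icc 1 m', (1 / 10 : ℝ) ^ i) * (2 * T z ^ N) := by
            rw [Finset.sum_mul]
        _ ≤ 1 / 9 * (2 * T z ^ N) := mul_le_mul_of_nonneg_right (geo_bound m') (by positivity)
        _ = _ := by ring
    calc ‖∑ i ∈ Finset.Icc 1 m', (t i : ℂ) * rv (B i) z - rv h z‖
        ≤ ‖∑ i ∈ Finset.Icc 1 m', (t i : ℂ) * rv (B i) z‖ + ‖rv h z‖ := norm_sub_le _ _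
      _ ≤ 2 / 9 * T z ^ N + 1 / 4 * T z ^ N := add_le_add h2 (hhb' z hz)
      _ ≤ 1 / 2 * T z ^ N := by nlinarith
  have hFoff : ∀ z, z ∉ K → ‖ev F z - (p.eval z) ^ N‖ ≤ 1 / 2 * ‖(p.eval z) ^ N‖ := by
    have hpN : (p ^ N).natDegree = n := by rw [hp.natDegree_pow, hpd]
    have hcF : (cp F).Monic := hFm.map _
    have hcFd : (cp F).natDegree = n := by
      rw [cp, hFm.natDegree_map, hFd]
    have hdeg' : (cp F - p ^ N).degree < (p ^ N).degree := by
      have h1 : (cp F).degree = (p ^ N).degree := by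
        rw [degree_eq_natDegree hcF.ne_zero, degree_eq_natDegree (hp.pow N).ne_zero, hcFd, hpN]
      have h2 : (cp F - p ^ N).degree < (cp F).degree := by
        apply degree_sub_lt_left h1 hcF.ne_zero
        rw [hcF.leadingCoeff, (hp.pow N).leadingCoeff]
      rwa [h1] at h2
    have h3 := hMAXP K (fun z => T z ^ N) (cp F - p ^ N) (p ^ N) hK (hTcont.pow N) hdeg'
      (fun z => pow_pos (hTpos z) N)
      (fun z hz => by rw [eval_pow, norm_pow, hpoff z hz])
      (fun z hz => by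
        have := hFK z hz
        rw [eval_sub, eval_pow]
        exact this)
    intro z hz
    have := h3 z hz
    rw [eval_sub, eval_pow] at this
    exact this
  refine ⟨F, hFm, hFd, hFi, hF0, ?_, ?_⟩
  · intro z hz0
    by_contra hzK
    have h1 := hFoff z hzK
    rw [hz0, zero_sub, norm_neg] at h1
    have h2 : 0 < ‖(p.eval z) ^ N‖ := by
      rw [norm_pow, hpoff z hzK]
      exact pow_pos (hTpos z) N
    linarith
  · intro z
    by_cases hzK : z ∈ K
    · have h1 := hFK z hzK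
      have h2 : ‖(p.eval z) ^ N‖ ≤ T z ^ N := by
        rw [norm_pow]
        exact pow_le_pow_left₀ (norm_nonneg _) (hpK z hzK) N
      calc ‖ev F z‖ = ‖(ev F z - (p.eval z) ^ N) + (p.eval z) ^ N‖ := by rw [sub_add_cancel]
        _ ≤ ‖ev F z - (p.eval z) ^ N‖ + ‖(p.eval z) ^ N‖ := norm_add_le _ _
        _ ≤ 1 / 2 * T z ^ N + T z ^ N := add_le_add h1 h2
        _ = 3 / 2 * T z ^ N := by ring
    · have h1 := hFoff z hzK
      have h2 : ‖(p.eval z) ^ N‖ = T z ^ N := by
        rw [norm_pow, hpoff z hzK]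
      rw [h2] at h1
      calc ‖ev F z‖ = ‖(ev F z - (p.eval z) ^ N) + (p.eval z) ^ N‖ := by rw [sub_add_cancel]
        _ ≤ ‖ev F z - (p.eval z) ^ N‖ + ‖(p.eval z) ^ N‖ := norm_add_le _ _
        _ ≤ 1 / 2 * T z ^ N + T z ^ N := add_le_add h1 h2.le
        _ = 3 / 2 * T z ^ N := by ring

end Pool.Agent.Work.MP_ce2d68_st.helper90
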