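import Mathlib
import Pool.Agent.Work.MP_ce2d68_st.Interface

set_option autoImplicit false

open Polynomial Filter Topology
open scoped ComplexConjugate

namespace Pool.Agent.Work.MP_ce2d68_st.helper90

open Pool.Agent.Work.MP_ce2d68_st

/-- the logarithm of the essential constant is Hoelder continuous with exponent 1/2 -/
theorem lec_hold (hTR0 : Stmt_TR0) (hLEP : Stmt_LEP) :
    ∀ θ₀ : ℝ, 0 < θ₀ → θ₀ < Real.pi → ∃ k : ℝ, 0 < k ∧ ∀ θ θ' : ℝ, θ₀ ≤ θ → θ ≤ θ' →
      θ' < Real.pi → lec θ ≤ lec θ' + k * √(θ' - θ) := by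
  intro θ₀ h0 hpi
  obtain ⟨C₀, s₁, hC0, hs1, hs116, H⟩ := hTR0 θ₀ h0 hpi
  obtain ⟨hbas, -, hanti, -, -⟩ := hLEP
  have hL0 := (hbas θ₀ h0 hpi).1
  refine ⟨2 * (10 + C₀) + 2 * lec θ₀ / s₁, by positivity, ?_⟩
  intro θ θ' h1 h2 h3
  have hθ0 : 0 < θ := lt_of_lt_of_le h0 h1
  have hθ'0 : 0 < θ' := lt_of_lt_of_le hθ0 h2
  have hθπ : θ < Real.pi := lt_of_le_of_lt h2 h3
  rcases eq_or_lt_of_le h2 with heq | hlt
  · subst heq
    simp
  set h := θ' - θ with hh
  have hhpos : 0 < h := by rw [hh]; linarith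
  have hsq : 0 < √h := Real.sqrt_pos.mpr hhpos
  have hlec' := (hbas θ' hθ'0 h3).1
  by_cases hcase : s₁ < 2 * √h
  · have h4 : lec θ ≤ lec θ₀ := by
      rcases eq_or_lt_of_le h1 with he | hl
      · rw [he]
      · exact (hanti ⟨h0, hpi⟩ ⟨hθ0, hθπ⟩ hl).le
    have h5 : lec θ₀ ≤ 2 * lec θ₀ / s₁ * √h := by
      rw [div_mul_eq_mul_div, le_div_iff₀ hs1]
      nlinarith
    have h6 : 0 ≤ 2 * (10 + C₀) * √h := by positivity
    nlinarith
  · push Not at hcase
    set s := 2 * √h with hs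
    have hspos : 0 < s := by positivity
    have hss : s * s / 4 = h := by
      rw [hs]
      have := Real.mul_self_sqrt hhpos.le
      nlinarith
    have key : ∀ ε : ℝ, 0 < ε → lec θ ≤ lec θ' + (10 + C₀) * s + ε := by
      intro ε hε
      obtain ⟨D, hD⟩ := exists_nat_gt (C₀ * (|Real.log (1 / (s * s))| + 1) / (ε / 2))
      obtain ⟨P, hP, hPD, hPl⟩ := (hbas θ' hθ'0 h3).2.1 (ε / 2) (by positivity) (D + 1)
      have h7 := H s (1 - s) θ θ' hspos hcase (by linarith) (by linarith) h1 hθπ h3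
        (by
          have : s * (1 - (1 - s)) / 4 = h := by
            rw [← hss]; ring
          rw [this, hh]; linarith) {P} (Finset.singleton_nonempty P)
        (fun Q hQ => by rw [Finset.mem_singleton] at hQ; rw [hQ]; exact hP)
      have h8 := (hbas θ hθ0 hθπ).2.2 _ h7
      have hdg : (dg {P} : ℝ) = P.natDegree := by simp [dg]
      rw [Finset.sum_singleton, hdg] at h8
      have hd : (D : ℝ) + 1 ≤ P.natDegree := by exact_mod_cast hPD
      have hD0 : (0 : ℝ) ≤ D := Nat.cast_nonneg D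
      have hdpos : (0 : ℝ) < P.natDegree := by linarith
      have h9 : C₀ * (P.natDegree * (1 - (1 - s)) + Real.log (1 / (s * (1 - (1 - s)))) + 1)
          / P.natDegree ≤ C₀ * s + ε / 2 := by
        have e1 : (1 - (1 - s)) = s := by ring
        rw [e1, div_le_iff₀ hdpos]
        have e2 : Real.log (1 / (s * s)) ≤ |Real.log (1 / (s * s))| := le_abs_self _
        have e3 : C₀ * (|Real.log (1 / (s * s))| + 1) ≤ ε / 2 * P.natDegree := by
          rw [div_lt_iff₀ (by positivity)] at hD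
          nlinarith
        nlinarith
      have h10 : Real.log (MM P) / P.natDegree = lv P := rfl
      rw [h10] at h8
      linarith
    have h11 : lec θ ≤ lec θ' + (10 + C₀) * s := le_of_forall_pos_le_add key
    have h12 : 0 ≤ 2 * lec θ₀ / s₁ * √h := by positivity
    rw [hs] at h11
    nlinarith

end Pool.Agent.Work.MP_ce2d68_st.helper90
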