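import Mathlib
import Pool.Agent.Work.MP_ce2d68_st.Interface
import Pool.Agent.Work.MP_ce2d68_st_helper12.FIN
import Pool.Agent.Work.MP_ce2d68_st_helper12.ST2A
import Pool.Agent.Work.MP_ce2d68_st_helper20.RSUM
import Pool.Agent.Work.MP_ce2d68_st_helper20.STR1
import Pool.Agent.Work.MP_ce2d68_st_helper21.ARC
import Pool.Agent.Work.MP_ce2d68_st_helper21.LAN
import Pool.Agent.Work.MP_ce2d68_st_helper23.DIG
import Pool.Agent.Work.MP_ce2d68_st_helper23.ETP
import Pool.Agent.Work.MP_ce2d68_st_helper30.CNT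
import Pool.Agent.Work.MP_ce2d68_st_helper30.COV
import Pool.Agent.Work.MP_ce2d68_st_helper30.EIS
import Pool.Agent.Work.MP_ce2d68_st_helper30.LEP
import Pool.Agent.Work.MP_ce2d68_st_helper30.POL
import Pool.Agent.Work.MP_ce2d68_st_helper30.STR
import Pool.Agent.Work.MP_ce2d68_st_helper36.BIG
import Pool.Agent.Work.MP_ce2d68_st_helper36.GEO2
import Pool.Agent.Work.MP_ce2d68_st_helper39.TRL
import Pool.Agent.Work.MP_ce2d68_st_helper46.FEK
import Pool.Agent.Work.MP_ce2d68_st_helper46.MINK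
import Pool.Agent.Work.MP_ce2d68_st_helper52.ACHV
import Pool.Agent.Work.MP_ce2d68_st_helper52.GOL
import Pool.Agent.Work.MP_ce2d68_st_helper54.COVF
import Pool.Agent.Work.MP_ce2d68_st_helper54.TOPP
import Pool.Agent.Work.MP_ce2d68_st_helper55.BAS
import Pool.Agent.Work.MP_ce2d68_st_helper55.BASF
import Pool.Agent.Work.MP_ce2d68_st_helper55.RES
import Pool.Agent.Work.MP_ce2d68_st_helper56.ADSC
import Pool.Agent.Work.MP_ce2d68_st_helper56.ZER
import Pool.Agent.Work.MP_ce2d68_st_helper6.MAXP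
import Pool.Agent.Work.MP_ce2d68_st_helper63.COST
import Pool.Agent.Work.MP_ce2d68_st_helper63.GEO
import Pool.Agent.Work.MP_ce2d68_st_helper70.JEN
import Pool.Agent.Work.MP_ce2d68_st_helper70.STR2
import Pool.Agent.Work.MP_ce2d68_st_helper71.TR0
import Pool.Agent.Work.MP_ce2d68_st_helper71.ST1A
import Pool.Agent.Work.MP_ce2d68_st_helper76.SCR
import Pool.Agent.Work.MP_ce2d68_st_helper79.ETR
import Pool.Agent.Work.MP_ce2d68_st_helper79.FAR
import Pool.Agent.Work.MP_ce2d68_st_helper90.ETG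
import Pool.Agent.Work.MP_ce2d68_st_helper90.HOLD

set_option autoImplicit false

namespace Pool.Agent.Work.MP_ce2d68_st.helper90

open Pool.Agent.Work.MP_ce2d68_st

theorem p_BAS : Stmt_BAS := helper55.stmt_BAS
theorem p_BASF : Stmt_BASF := helper55.stmt_BASF p_BAS
theorem p_RES : Stmt_RES := helper55.stmt_RES p_BAS
theorem p_DSC : Stmt_DSC := helper55.stmt_DSC p_BAS p_BASF p_RES
theorem p_MINK : Stmt_MINK := helper46.stmt_MINK p_BAS
theorem p_COV : Stmt_COV := helper30.stmt_COV p_BAS p_MINK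
theorem p_COVF : Stmt_COVF := helper54.stmt_COVF p_BAS p_BASF p_COV
theorem p_DIG : Stmt_DIG := helper23.stmt_DIG p_BAS p_BASF p_COVF
theorem p_ETR : Stmt_ETR := helper79.stmt_ETR p_DIG
theorem p_ETG : Stmt_ETG := stmt_ETG p_BAS p_BASF p_ETR helper54.stmt_TOPP helper6.stmt_MAXP
  helper30.stmt_EIS
theorem p_ACHV : Stmt_ACHV := helper52.stmt_ACHV p_BAS
theorem p_ETP : Stmt_ETP := helper23.stmt_ETP p_ETG p_ACHV
theorem p_TR0 : Stmt_TR0 := helper71.stmt_TR0 p_BAS p_BASF p_DSC p_ETP helper63.stmt_COST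
  helper63.stmt_GEO helper36.stmt_BIG
theorem p_POL : Stmt_POL := helper30.stmt_POL p_TR0
theorem p_CNT : Stmt_CNT := helper30.stmt_CNT p_TR0
theorem p_RSUM : Stmt_RSUM := helper20.stmt_RSUM helper70.stmt_JEN
theorem p_ST1A : Stmt_ST1A := helper71.stmt_ST1A p_BAS p_BASF p_DSC p_ETP helper63.stmt_COST
  helper36.stmt_GEO2 helper36.stmt_BIG helper56.stmt_ADSC p_RSUM
theorem p_STR1 : Stmt_STR1 := helper20.stmt_STR1 p_ST1A
theorem p_ST2A : Stmt_ST2A := helper12.stmt_ST2A p_BAS p_BASF p_DSC p_ETP helper63.stmt_COST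
  helper36.stmt_GEO2
theorem p_STR2 : Stmt_STR2 := helper70.stmt_STR2 helper79.stmt_FAR p_ST2A
theorem p_STR : Stmt_STR := helper30.stmt_STR p_BAS p_STR1 p_STR2
theorem p_ARC : Stmt_ARC := helper21.stmt_ARC helper46.stmt_FEK
theorem p_LAN : Stmt_LAN := helper21.stmt_LAN p_BAS p_RES p_ARC
theorem p_ZER : Stmt_ZER := helper56.stmt_ZER p_BAS p_RES helper52.stmt_GOL
theorem p_LEP : Stmt_LEP := helper30.stmt_LEP p_POL p_CNT p_STR p_LAN helper52.stmt_GOL
theorem p_TRL : Stmt_TRL := helper39.stmt_TRL p_BAS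
theorem p_FIN : Stmt_FIN := helper12.stmt_FIN p_LAN p_ZER helper52.stmt_GOL p_LEP p_TRL
  helper76.stmt_SCR

end Pool.Agent.Work.MP_ce2d68_st.helper90
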