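import Mathlib
import Pool.Agent.Work.MP_ce2d68_st.Interface
import Pool.Agent.Work.MP_ce2d68_st_helper12.FIN
import Pool.Agent.Work.MP_ce2d68_st_helper90.HOLD

set_option autoImplicit false

open Polynomial Filter Topology
open scoped ComplexConjugate

namespace Pool.Agent.Work.MP_ce2d68_st.helper90

open Pool.Agent.Work.MP_ce2d68_st

/-- the essential constant -/
noncomputable def ess (θ : ℝ) : ℝ := sInf {v : ℝ | {α : ℂ | IsSec θ α ∧ nM α < v}.Infinite}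

theorem ess_of (C : ℝ → ℝ) (θ : ℝ) (h1 : ∀ v < C θ, {α | IsSec θ α ∧ nM α ≤ v}.Finite)
    (h2 : ∀ v > C θ, {α | IsSec θ α ∧ nM α < v}.Infinite) : ess θ = C θ := by
  have hlb : ∀ v ∈ {v : ℝ | {α : ℂ | IsSec θ α ∧ nM α < v}.Infinite}, C θ ≤ v := by
    intro v hv
    by_contra hcon
    push Not at hcon
    exact hv ((h1 v hcon).subset fun α hα => ⟨hα.1, hα.2.le⟩)
  apply le_antisymm
  · apply le_of_forall_pos_le_add
    intro ε hε
    exact csInf_le ⟨C θ, hlb⟩ (h2 (C θ + ε) (by linarith))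
  · exact le_csInf ⟨C θ + 1, h2 _ (by linarith)⟩ hlb

theorem exp_lec_finite (hLEP : Stmt_LEP) (hTRL : Stmt_TRL) (θ : ℝ) (h0 : 0 < θ)
    (h1 : θ < Real.pi) (v : ℝ) (hv : v < Real.exp (lec θ)) :
    {α | IsSec θ α ∧ nM α ≤ v}.Finite := by
  rcases le_or_gt v 0 with hv0 | hv0
  · apply Set.Finite.subset Set.finite_empty
    rintro α ⟨hα, hαv⟩
    rw [(hTRL.1 θ α hα).2.1] at hαv
    exact absurd (Real.exp_pos (lv (minpoly ℤ α))) (by linarith)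
  have hlog : Real.log v < lec θ := by
    rw [← Real.log_exp (lec θ)]
    exact Real.log_lt_log hv0 hv
  have hfin := hLEP.2.2.2.1 θ h0 h1 (Real.log v) hlog
  apply (hfin.biUnion (t := fun P => (↑(rts P) : Set ℂ))
    (fun P _ => (rts P).finite_toSet)).subset
  rintro α ⟨hα, hαv⟩
  obtain ⟨h2, h3, h4⟩ := hTRL.1 θ α hα
  simp only [Set.mem_iUnion]
  refine ⟨minpoly ℤ α, ⟨h2, ?_⟩, h4⟩
  rw [h3] at hαv
  rw [← Real.log_exp (lv (minpoly ℤ α))]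
  exact Real.log_le_log (Real.exp_pos _) hαv

theorem exp_lec_infinite (hLEP : Stmt_LEP) (hTRL : Stmt_TRL) (θ : ℝ) (h0 : 0 < θ)
    (h1 : θ < Real.pi) (v : ℝ) (hv : Real.exp (lec θ) < v) :
    {α | IsSec θ α ∧ nM α < v}.Infinite := by
  intro hfin
  have hv0 : 0 < v := lt_trans (Real.exp_pos _) hv
  have hlog : lec θ < Real.log v := by
    rw [← Real.log_exp (lec θ)]
    exact Real.log_lt_log (Real.exp_pos _) hv
  obtain ⟨N, hN⟩ := (hfin.image (fun α => (minpoly ℤ α).natDegree)).bddAbove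
  obtain ⟨F, hF, hFN, hFlv⟩ := (hLEP.1 θ h0 h1).2.1 ((Real.log v - lec θ) / 2)
    (by linarith) (N + 1)
  obtain ⟨⟨α, hα⟩, h2⟩ := hTRL.2 θ F hF
  obtain ⟨h3, h4⟩ := h2 α hα
  have h5 : nM α < v := by
    rw [(hTRL.1 θ α h3).2.1, h4, ← Real.exp_log hv0]
    apply Real.exp_lt_exp.2
    linarith
  have h6 := hN ⟨α, ⟨h3, h5⟩, rfl⟩
  simp only [h4] at h6
  omega

theorem ess_eq (hLEP : Stmt_LEP) (hTRL : Stmt_TRL) (θ : ℝ) (h0 : 0 < θ) (h1 : θ < Real.pi) :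
    ess θ = Real.exp (lec θ) :=
  ess_of (fun θ => Real.exp (lec θ)) θ (fun v hv => exp_lec_finite hLEP hTRL θ h0 h1 v hv)
    (fun v hv => exp_lec_infinite hLEP hTRL θ h0 h1 v hv)

theorem exp_sub_le (a x y : ℝ) (hx : x ≤ a) (hy : y ≤ a) :
    |Real.exp x - Real.exp y| ≤ Real.exp a * |x - y| := by
  wlog h : y ≤ x generalizing x y with H
  · rw [abs_sub_comm, abs_sub_comm x y]
    exact H y x hy hx (le_of_not_ge h)
  rw [abs_of_nonneg (by linarith [Real.exp_le_exp.mpr h]), abs_of_nonneg (by linarith)]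
  have h1 : Real.exp y = Real.exp x * Real.exp (y - x) := by
    rw [← Real.exp_add]; congr 1; ring
  have h2 : 1 - Real.exp (y - x) ≤ x - y := by
    have := Real.add_one_le_exp (y - x)
    linarith
  calc Real.exp x - Real.exp y = Real.exp x * (1 - Real.exp (y - x)) := by rw [h1]; ring
    _ ≤ Real.exp x * (x - y) := mul_le_mul_of_nonneg_left h2 (Real.exp_pos _).le
    _ ≤ Real.exp a * (x - y) :=
        mul_le_mul_of_nonneg_right (Real.exp_le_exp.mpr hx) (by linarith)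

theorem ess_hold (hTR0 : Stmt_TR0) (hLEP : Stmt_LEP) (hTRL : Stmt_TRL) :
    ∀ θ₀ ∈ Set.Ioo 0 Real.pi, ∃ k : ℝ, 0 < k ∧ ∀ θ ∈ Set.Ico θ₀ Real.pi,
      ∀ θ' ∈ Set.Ico θ₀ Real.pi, |ess θ - ess θ'| ≤ k * √|θ - θ'| := by
  rintro θ₀ ⟨h0, hpi⟩
  obtain ⟨k, hk, H⟩ := lec_hold hTR0 hLEP θ₀ h0 hpi
  have hanti := hLEP.2.2.1
  refine ⟨Real.exp (lec θ₀) * k, by positivity, ?_⟩
  have hbd : ∀ θ ∈ Set.Ico θ₀ Real.pi, lec θ ≤ lec θ₀ := by
    rintro θ ⟨h1, h2⟩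
    rcases eq_or_lt_of_le h1 with he | hl
    · rw [he]
    · exact (hanti ⟨h0, hpi⟩ ⟨by linarith, h2⟩ hl).le
  intro θ hθ θ' hθ'
  rw [ess_eq hLEP hTRL θ (by linarith [hθ.1]) hθ.2, ess_eq hLEP hTRL θ' (by linarith [hθ'.1]) hθ'.2]
  refine (exp_sub_le (lec θ₀) _ _ (hbd θ hθ) (hbd θ' hθ')).trans ?_
  rw [mul_assoc]
  apply mul_le_mul_of_nonneg_left _ (Real.exp_pos _).le
  wlog h : θ ≤ θ' generalizing θ θ' with W
  · rw [abs_sub_comm, abs_sub_comm θ θ']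
    exact W θ' hθ' θ hθ (le_of_not_ge h)
  have h3 : lec θ' ≤ lec θ := by
    rcases eq_or_lt_of_le h with he | hl
    · rw [he]
    · exact (hanti ⟨by linarith [hθ.1], hθ.2⟩ ⟨by linarith [hθ'.1], hθ'.2⟩ hl).le
  have h4 := H θ θ' hθ.1 h hθ'.2
  rw [abs_of_nonneg (by linarith), abs_sub_comm, abs_of_nonneg (by linarith : (0:ℝ) ≤ θ' - θ)]
  linarith

end Pool.Agent.Work.MP_ce2d68_st.helper90
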